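import Pool.Agent.Lib.EAF80.Main

/-! The hypothesis `sup W < 1` of Q1 cannot be replaced by moment conditions. -/

open MeasureTheory Filter Topology unitInterval
open scoped NNReal ENNReal

namespace Pool.Agent.Results.MP_eaf82e_pr.NoLimit

/-- `φ(μ, W)`, with values in `[0, ∞]`. -/
noncomputable def phi (W : I → I → I) (μ : Measure I) : ℝ≥0∞ :=
  ⨆ (S : Set I) (_ : MeasurableSet S) (_ : 0 < μ S), (μ S)⁻¹ *
    ∫⁻ x in S, ∫⁻ y in S, ENNReal.ofReal (Real.log (1 / (1 - (W x y : ℝ)))) ∂μ ∂μ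

/-- `φ_*(W)`: infimum over finite convex decompositions of Lebesgue measure. -/
noncomputable def phiStar (W : I → I → I) : ℝ≥0∞ :=
  ⨅ (k : ℕ) (μ : Fin k → ProbabilityMeasure I) (α : Fin k → ℝ≥0) (_ : ∑ i, α i = 1)
    (_ : ∑ i, α i • (μ i : Measure I) = volume), ∑ i, (α i : ℝ≥0∞) * phi W (μ i)

/-- The graph with vertex positions `X` and edge variables `U`: for `i < j`, `ij` is an edge
iff `U (i, j) < W (X i) (X j)`. -/
def sample (W : I → I → I) {n : ℕ} (X : Fin n → I) (U : Fin n × Fin n → I) :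
    SimpleGraph (Fin n) :=
  SimpleGraph.fromRel fun i j => i < j ∧ U (i, j) < W (X i) (X j)

theorem result (ε : ℝ) (hε : 0 < ε) :
    ∃ W : I → I → I, Measurable (Function.uncurry W) ∧ (∀ x y, W x y = W y x) ∧
      (∃ c : ℝ, 0 < c ∧ ∀ x y, c ≤ (W x y : ℝ)) ∧ (∀ x y, (W x y : ℝ) < 1) ∧
      (∀ s : ℝ, ∃ C : ℝ≥0, ∀ x, ∫⁻ y, ENNReal.ofReal ((1 - (W x y : ℝ)) ^ (-s)) ≤ C) ∧
      0 < phiStar W ∧ phiStar W < ∞ ∧
      (∃ n : ℕ → ℕ, Tendsto n atTop atTop ∧
        Tendsto (fun k => volume {ω : (Fin (n k) → I) × (Fin (n k) × Fin (n k) → I) |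
          ε * ((phiStar W).toReal * (n k / (2 * Real.log (n k)))) <
            ((sample W ω.1 ω.2).chromaticNumber.toNat : ℝ)}) atTop (𝓝 0)) ∧
      ∃ n : ℕ → ℕ, Tendsto n atTop atTop ∧
        Tendsto (fun k => volume {ω : (Fin (n k) → I) × (Fin (n k) × Fin (n k) → I) |
          ((sample W ω.1 ω.2).chromaticNumber.toNat : ℝ) <
            (1 - ε) * ((phiStar W).toReal * (n k / (2 * Real.log (n k))))}) atTop (𝓝 0) := by
  have hγ : 0 < 22 / ε := by positivity
  obtain ⟨N, hN⟩ := exists_nat_ge (8 / ε)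
  have hN0 : (0 : ℝ) < N := lt_of_lt_of_le (by positivity) hN
  obtain ⟨W, h1, h2, h3, h4, h5, h6, hd, ⟨n, h7, h8⟩, n', h7', h8'⟩ :=
    Pool.Agent.Lib.EAF80.exists_graphon (γ := (22 / ε).toNNReal) (by simpa using hγ)
      (e := ε / 4) (by positivity) N
  have lo : ((22 / ε).toNNReal : ℝ≥0∞) ≤ phiStar W := by
    refine le_iInf fun k => le_iInf fun μ => le_iInf fun α => le_iInf fun a1 => le_iInf fun a2 => ?_
    calc _ = ∑ i, (α i : ℝ≥0∞) * (22 / ε).toNNReal := by
          rw [← Finset.sum_mul, ← ENNReal.ofNNReal_finsetSum, a1, ENNReal.coe_one, one_mul]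
      _ ≤ _ := Finset.sum_le_sum fun i _ => ?_
    rcases eq_or_ne (α i) 0 with h0 | h0
    · simp [h0]
    refine mul_le_mul' le_rfl ((h6 (μ i) (α i)⁻¹ (by simpa using h0) fun S => ?_).trans ?_)
    · have h9 : α i • (μ i : Measure I) ≤ volume := a2 ▸ Finset.single_le_sum
        (f := fun i => α i • (μ i : Measure I)) (fun _ _ => Measure.zero_le _) (Finset.mem_univ i)
      rw [Measure.smul_apply, smul_eq_mul, ← ENNReal.mul_le_iff_le_inv (by simpa using h0) (by simp)]
      exact h9 S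
    · refine le_iSup₂_of_le Set.univ MeasurableSet.univ (le_iSup_of_le (by simp) ?_)
      simp
  have hi : phiStar W ≤ ENNReal.ofReal (1 + 22 / ε * (1 + 2 * (N : ℝ)⁻¹)) := by
    refine iInf₂_le_of_le 1 (fun _ => ⟨volume, inferInstance⟩)
      (iInf₂_le_of_le (fun _ => 1) (by simp) (iInf_le_of_le (by simp) ?_))
    simp only [Finset.univ_unique, Finset.sum_singleton, ENNReal.coe_one, one_mul]
    refine iSup₂_le fun S _ => iSup_le fun h0 => ?_
    simp only [ProbabilityMeasure.coe_mk] at h0 ⊢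
    rw [ENNReal.inv_mul_le_iff h0.ne' (measure_ne_top _ _), mul_comm, ← setLIntegral_const]
    refine lintegral_mono fun x => (setLIntegral_le_lintegral _ _).trans ((hd x).trans (le_of_eq ?_))
    rw [ENNReal.ofReal_add zero_le_one (by positivity), ENNReal.ofReal_mul hγ.le,
      ENNReal.ofReal_add zero_le_one (by positivity), ENNReal.ofReal_mul zero_le_two,
      ENNReal.ofReal_inv_of_pos hN0]
    simp [ENNReal.ofReal]
  have hp : ∀ m : ℕ, (0 : ℝ) ≤ m / (2 * Real.log m) := fun m =>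
    div_nonneg (Nat.cast_nonneg _) (mul_nonneg zero_le_two (Real.log_natCast_nonneg _))
  have ht := lt_of_le_of_lt hi ENNReal.ofReal_lt_top
  refine ⟨W, h1, h2, h3, h4, h5, lt_of_lt_of_le (by simpa using hγ) lo, ht, ⟨n, h7,
    tendsto_of_tendsto_of_tendsto_of_le_of_le tendsto_const_nhds h8 (fun _ => bot_le)
      fun k => measure_mono fun ω hω => ?_⟩, n', h7',
    tendsto_of_tendsto_of_tendsto_of_le_of_le tendsto_const_nhds h8' (fun _ => bot_le)
      fun k => measure_mono fun ω hω => ?_⟩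
  · refine lt_of_le_of_lt (b := ε * ((phiStar W).toReal * (n k / (2 * Real.log (n k))))) ?_ hω
    have h9 := ENNReal.toReal_mono ht.ne lo
    rw [ENNReal.coe_toReal, Real.coe_toNNReal _ hγ.le, div_le_iff₀' hε] at h9
    rw [← mul_assoc]
    exact mul_le_mul_of_nonneg_right h9 (hp _)
  · refine lt_of_lt_of_le
      (b := (1 - ε) * ((phiStar W).toReal * (n' k / (2 * Real.log (n' k))))) hω ?_
    rw [← mul_assoc, Real.coe_toNNReal _ hγ.le]
    refine mul_le_mul_of_nonneg_right ?_ (hp _)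
    rcases le_total 1 ε with h9 | h9
    · exact le_trans (mul_nonpos_of_nonpos_of_nonneg (by linarith) ENNReal.toReal_nonneg)
        (by positivity)
    have a1 := ENNReal.toReal_le_of_le_ofReal (by positivity) hi
    have a2 : (N : ℝ)⁻¹ ≤ ε / 8 := by
      rw [inv_le_comm₀ hN0 (by positivity), inv_div]; exact hN
    have a3 : (phiStar W).toReal ≤ 22 / ε * (1 + ε / 2) := by
      have : 22 / ε * ε = 22 := by field_simp
      nlinarith [mul_le_mul_of_nonneg_left a2 hγ.le]
    refine (mul_le_mul_of_nonneg_left a3 (by linarith)).trans ?_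
    rw [le_div_iff₀ (by positivity), mul_left_comm, mul_assoc]
    refine mul_le_of_le_one_right hγ.le ?_
    nlinarith [mul_pos hε hε, mul_pos hε (mul_pos hε hε)]

end Pool.Agent.Results.MP_eaf82e_pr.NoLimit
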