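import Pool.Agent.Lib.MP_eaf82e_pr.Final

/-! Companion of the frozen statement S19717: the graph is sampled from uniform variables. -/

open MeasureTheory Filter Topology unitInterval
open scoped NNReal ENNReal

namespace Pool.Agent.Results.MP_eaf82e_pr.Sampled

/-- `φ(μ, W)`. -/
noncomputable def phi (W : I → I → I) (μ : Measure I) : ℝ :=
  sSup {r : ℝ | ∃ S : Set I, MeasurableSet S ∧ 0 < μ S ∧
    r = 1 / μ.real S * ∫ x in S, (∫ y in S, Real.log (1 / (1 - (W x y : ℝ))) ∂μ) ∂μ}

/-- `φ_*(W)`: infimum over finite convex decompositions of Lebesgue measure. -/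
noncomputable def phiStar (W : I → I → I) : ℝ :=
  sInf {t : ℝ | ∃ (k : ℕ) (μ : Fin k → ProbabilityMeasure I) (α : Fin k → ℝ≥0),
    ∑ i, α i = 1 ∧ ∑ i, α i • (μ i : Measure I) = volume ∧ t = ∑ i, (α i : ℝ) * phi W (μ i)}

/-- The graph with vertex positions `X` and edge variables `U`: for `i < j`, `ij` is an edge
iff `U (i, j) < W (X i) (X j)`. -/
def sample (W : I → I → I) {n : ℕ} (X : Fin n → I) (U : Fin n × Fin n → I) :
    SimpleGraph (Fin n) :=
  SimpleGraph.fromRel fun i j => i < j ∧ U (i, j) < W (X i) (X j)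

/-- extension of `W` to the plane -/
noncomputable def ext (W : I → I → I) (x y : ℝ) : ℝ :=
  W (Set.projIcc 0 1 zero_le_one x) (Set.projIcc 0 1 zero_le_one y)

lemma ext_coe (W : I → I → I) (x y : I) : ext W x y = W x y := by simp [ext]

noncomputable def phi' (W : ℝ → ℝ → ℝ) (μ : Measure ℝ) : ℝ :=
  sSup {r : ℝ | ∃ S : Set ℝ, MeasurableSet S ∧ 0 < μ S ∧
    r = (μ S).toReal⁻¹ * ∫ x in S, (∫ y in S, Real.log (1 / (1 - W x y)) ∂μ) ∂μ}

lemma phi_map (W : I → I → I) (μ : Measure I) :
    phi' (ext W) (μ.map Subtype.val) = phi W μ := by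
  have key : ∀ S : Set ℝ, MeasurableSet S →
      ((μ.map Subtype.val) S).toReal⁻¹ * ∫ x in S, (∫ y in S, Real.log (1 / (1 - ext W x y))
        ∂(μ.map Subtype.val)) ∂(μ.map Subtype.val) =
      1 / μ.real (Subtype.val ⁻¹' S) * ∫ x in Subtype.val ⁻¹' S, (∫ y in Subtype.val ⁻¹' S,
        Real.log (1 / (1 - (W x y : ℝ))) ∂μ) ∂μ := by
    intro S _
    simp only [measurableEmbedding_coe.setIntegral_map, measurableEmbedding_coe.map_apply, ext_coe,
      one_div, Measure.real]
  unfold phi' phi
  refine congrArg sSup (Set.ext fun r => ⟨?_, ?_⟩)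
  · rintro ⟨S, hS, h0, rfl⟩
    exact ⟨Subtype.val ⁻¹' S, measurable_subtype_coe hS,
      by rwa [measurableEmbedding_coe.map_apply] at h0, key S hS⟩
  · rintro ⟨S, hS, h0, rfl⟩
    have hS' := measurableEmbedding_coe.measurableSet_image.2 hS
    have e : Subtype.val ⁻¹' (Subtype.val '' S) = S := Set.preimage_image_eq S Subtype.val_injective
    refine ⟨Subtype.val '' S, hS', by rwa [measurableEmbedding_coe.map_apply, e], ?_⟩
    rw [key _ hS', e]

lemma phiStar_eq (W : I → I → I) : phiStar W =
    sInf {t : ℝ | ∃ k : ℕ, ∃ ν : Fin k → Measure ℝ, ∃ α : Fin k → ℝ,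
        (∀ i, IsProbabilityMeasure (ν i)) ∧ (∀ i, ν i (Set.Icc (0:ℝ) 1)ᶜ = 0) ∧
        (∀ i, 0 ≤ α i) ∧ ∑ i, α i = 1 ∧
        ∑ i, ENNReal.ofReal (α i) • ν i = volume.restrict (Set.Icc (0:ℝ) 1) ∧
        t = ∑ i, α i * phi' (ext W) (ν i)} := by
  have hsum : ∀ (k : ℕ) (μ : Fin k → Measure I) (α : Fin k → ℝ≥0),
      (∑ i, α i • μ i).map Subtype.val = ∑ i, ENNReal.ofReal (α i) • (μ i).map Subtype.val := by
    intro k μ α
    ext S hS
    simp [measurableEmbedding_coe.map_apply, Measure.finsetSum_apply]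
  unfold phiStar
  refine congrArg sInf (Set.ext fun t => ⟨?_, ?_⟩)
  · rintro ⟨k, μ, α, h1, h2, rfl⟩
    refine ⟨k, fun i => (μ i : Measure I).map Subtype.val, fun i => α i, fun i => ?_, fun i => ?_,
      fun i => (α i).2, by simp only [← NNReal.coe_sum, h1, NNReal.coe_one], ?_, by simp only [phi_map]⟩
    · exact Measure.isProbabilityMeasure_map measurable_subtype_coe.aemeasurable
    · rw [measurableEmbedding_coe.map_apply]
      have : (Subtype.val : I → ℝ) ⁻¹' (Set.Icc (0:ℝ) 1)ᶜ = ∅ := by
        ext x; simp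
      rw [this, measure_empty]
    · rw [← hsum, h2]; exact measurePreserving_coe.map_eq
  · rintro ⟨k, ν, α, h1, h2, h3, h4, h5, rfl⟩
    lift α to Fin k → ℝ≥0 using h3
    have hν : ∀ i, ((ν i).comap (Subtype.val : I → ℝ)).map Subtype.val = ν i := by
      intro i
      rw [measurableEmbedding_coe.map_comap, Subtype.range_coe]
      exact Measure.restrict_eq_self_of_ae_mem (h2 i)
    have hp : ∀ i, IsProbabilityMeasure ((ν i).comap (Subtype.val : I → ℝ)) := by
      intro i
      refine ⟨?_⟩
      have := congrArg (fun m : Measure ℝ => m Set.univ) (hν i)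
      simpa [measurableEmbedding_coe.map_apply] using this
    refine ⟨k, fun i => ⟨_, hp i⟩, α, ?_, ?_, ?_⟩
    · exact NNReal.eq (by simpa using h4)
    · refine measurableEmbedding_coe.map_injective ?_
      simp only [hsum, ProbabilityMeasure.coe_mk, hν, h5]
      exact measurePreserving_coe.map_eq.symm
    · refine Finset.sum_congr rfl fun i _ => ?_
      simp only [ProbabilityMeasure.coe_mk, ← phi_map, hν]

open Classical in
lemma fibre (W : I → I → I) {n : ℕ} (X : Fin n → I) (U : Fin n × Fin n → I)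
    (G : SimpleGraph (Fin n)) : sample W X U = G ↔ ∀ p : Fin n × Fin n, U p ∈
      (if p.1 < p.2 then (if G.Adj p.1 p.2 then Set.Iio (W (X p.1) (X p.2))
        else Set.Ici (W (X p.1) (X p.2))) else Set.univ) := by
  have h1 : ∀ i j, i < j → ((sample W X U).Adj i j ↔ U (i, j) < W (X i) (X j)) := by
    intro i j h
    simp [sample, SimpleGraph.fromRel_adj, h, h.ne, h.not_gt]
  constructor
  · rintro rfl ⟨i, j⟩
    by_cases h : i < j
    · by_cases h2 : U (i, j) < W (X i) (X j)
      · simp [h, h1 i j h, h2]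
      · simpa [h, h1 i j h, h2] using not_lt.1 h2
    · simp [h]
  · intro h
    have h2 : ∀ i j, i < j → ((sample W X U).Adj i j ↔ G.Adj i j) := by
      intro i j hij
      have := h (i, j)
      rw [h1 i j hij]
      by_cases h3 : G.Adj i j
      · simpa [hij, h3] using this
      · simpa [hij, h3] using this
    ext i j
    rcases lt_trichotomy i j with hij | rfl | hij
    · exact h2 i j hij
    · simp
    · rw [SimpleGraph.adj_comm, G.adj_comm]; exact h2 j i hij

theorem result (W : I → I → I) (hW : Measurable (Function.uncurry W)) (hs : ∀ x y, W x y = W y x)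
    (c d : ℝ) (hc : 0 < c) (hd : d < 1) (hb : ∀ x y, c ≤ (W x y : ℝ) ∧ (W x y : ℝ) ≤ d)
    (ε : ℝ) (hε : 0 < ε) :
    Tendsto (fun n : ℕ => volume {ω : (Fin n → I) × (Fin n × Fin n → I) |
      |((sample W ω.1 ω.2).chromaticNumber.toNat : ℝ) - phiStar W * (n / (2 * Real.log n))|
        ≤ ε * (phiStar W * (n / (2 * Real.log n)))}) atTop (𝓝 1) := by
  classical
  have hpr : Measurable (Set.projIcc (0:ℝ) 1 zero_le_one) := continuous_projIcc.measurable
  have hm : Measurable (Function.uncurry (ext W)) :=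
    measurable_subtype_coe.comp (hW.comp (hpr.prodMap hpr))
  have key := Pool.Agent.Lib.MP_eaf82e_pr.main (ext W) hm (fun x y => by simp only [ext, hs])
    ⟨c, d, hc, hd, fun x _ y _ => hb _ _⟩ (phi' (ext W)) (fun _ => rfl) (phiStar W) (phiStar_eq W)
    ε hε
  refine key.congr fun n => ?_
  set z := phiStar W * n / (2 * Real.log n) with hz
  have hz' : phiStar W * (n / (2 * Real.log n)) = z := by rw [hz, mul_div_assoc]
  rw [hz']
  let P : SimpleGraph (Fin n) → Prop := fun G =>
    (1 - ε) * z ≤ (G.chromaticNumber.toNat : ℝ) ∧ (G.chromaticNumber.toNat : ℝ) ≤ (1 + ε) * z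
  let A : SimpleGraph (Fin n) → Set ((Fin n → I) × (Fin n × Fin n → I)) := fun G =>
    {ω | P G ∧ sample W ω.1 ω.2 = G}
  have hA : ∀ G, MeasurableSet (A G) := by
    intro G
    refine MeasurableSet.inter (MeasurableSet.const _)
      (?_ : MeasurableSet {ω : (Fin n → I) × (Fin n × Fin n → I) | sample W ω.1 ω.2 = G})
    have : {ω : (Fin n → I) × (Fin n × Fin n → I) | sample W ω.1 ω.2 = G} =
        ⋂ p : Fin n × Fin n, {ω | ω.2 p ∈ (if p.1 < p.2 then (if G.Adj p.1 p.2 then
          Set.Iio (W (ω.1 p.1) (ω.1 p.2)) else Set.Ici (W (ω.1 p.1) (ω.1 p.2))) else Set.univ)} := by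
      ext ω; simp only [Set.mem_ofPred_eq, fibre, Set.mem_iInter]
    rw [this]
    refine MeasurableSet.iInter fun p => ?_
    have m1 : Measurable fun ω : (Fin n → I) × (Fin n × Fin n → I) => ω.2 p := by fun_prop
    have m2 : Measurable fun ω : (Fin n → I) × (Fin n × Fin n → I) => W (ω.1 p.1) (ω.1 p.2) :=
      hW.comp (g := Function.uncurry W) (f := fun ω : (Fin n → I) × (Fin n × Fin n → I) =>
        (ω.1 p.1, ω.1 p.2)) (by fun_prop)
    split_ifs
    · exact measurableSet_lt m1 m2
    · exact measurableSet_le m2 m1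
    · simp
  have hU : {ω : (Fin n → I) × (Fin n × Fin n → I) |
      |((sample W ω.1 ω.2).chromaticNumber.toNat : ℝ) - z| ≤ ε * z} = ⋃ G, A G := by
    ext ω
    simp only [A, P, Set.mem_ofPred_eq, Set.mem_iUnion, exists_eq_right', abs_le]
    constructor <;> rintro ⟨h1, h2⟩ <;> constructor <;> linarith
  have hdis : Pairwise (Function.onFun Disjoint A) := fun G H hGH =>
    Set.disjoint_left.2 fun ω h1 h2 => hGH (h1.2.symm.trans h2.2)
  let F : SimpleGraph (Fin n) → (Fin n → ℝ) → ℝ≥0∞ := fun G x =>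
    if P G then ∏ i : Fin n, ∏ j : Fin n, (if i < j then
      (if G.Adj i j then ENNReal.ofReal (ext W (x i) (x j))
        else ENNReal.ofReal (1 - ext W (x i) (x j))) else 1) else 0
  have hF : ∀ G, Measurable (F G) := by
    intro G
    by_cases hP : P G
    · simp only [F, if_pos hP]
      refine Finset.measurable_prod _ fun i _ => Finset.measurable_prod _ fun j _ => ?_
      have m2 : Measurable fun x : Fin n → ℝ => ext W (x i) (x j) :=
        hm.comp (g := Function.uncurry (ext W)) (f := fun x : Fin n → ℝ => (x i, x j)) (by fun_prop)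
      split_ifs
      · exact m2.ennreal_ofReal
      · exact (m2.const_sub 1).ennreal_ofReal
      · exact measurable_const
    · simp only [F, if_neg hP]; exact measurable_const
  have hmp : MeasurePreserving (fun (X : Fin n → I) (i : Fin n) => (X i : ℝ)) volume
      (volume.restrict (Set.univ.pi fun _ : Fin n => Set.Icc (0:ℝ) 1)) := by
    rw [volume_pi, volume_pi, Measure.restrict_pi_pi]
    exact measurePreserving_pi _ _ fun _ => measurePreserving_coe
  rw [hU, measure_iUnion hdis hA]
  change ∫⁻ x in _, ∑' G, F G x = _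
  rw [lintegral_tsum fun G => (hF G).aemeasurable]
  refine tsum_congr fun G => ?_
  rw [← hmp.lintegral_comp (hF G), Measure.volume_eq_prod, Measure.prod_apply (hA G)]
  refine lintegral_congr fun X => ?_
  by_cases hP : P G
  · have : Prod.mk X ⁻¹' A G = Set.univ.pi fun p : Fin n × Fin n =>
        (if p.1 < p.2 then (if G.Adj p.1 p.2 then Set.Iio (W (X p.1) (X p.2))
          else Set.Ici (W (X p.1) (X p.2))) else Set.univ) := by
      ext U; simp only [A, Set.mem_preimage, Set.mem_ofPred_eq, hP, true_and, fibre, Set.mem_univ_pi]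
    rw [this, volume_pi_pi, Fintype.prod_prod_type]
    simp only [F, if_pos hP, ext_coe]
    refine Finset.prod_congr rfl fun i _ => Finset.prod_congr rfl fun j _ => ?_
    split_ifs <;> simp
  · have : Prod.mk X ⁻¹' A G = ∅ := by
      ext U; simp [A, hP]
    simp only [this, F, if_neg hP, measure_empty]

end Pool.Agent.Results.MP_eaf82e_pr.Sampled
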